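import Mathlib
import Pool.Agent.Lib.helper29.New21

set_option autoImplicit false

namespace Pool.Agent.Results.MP_9e03a6_co.Mirror

open Pool.Agent.Lib.H29.Conf Pool.Agent.Lib.H29.Astral Pool.Agent.Lib.H29.New21

/-- There is a geometric (21_4) configuration in the Euclidean plane with a non-trivial geometric
symmetry whose combinatorial type has no polycyclic realization. -/
theorem result : ∃ (I : Fin 21 → Fin 21 → Prop) (P : Fin 21 → ℂ) (L : Fin 21 → Set ℂ),
    IsRegular 4 I ∧ EuRealizes I P L ∧ (∃ f : ℂ ≃ᵢ ℂ, f ≠ IsometryEquiv.refl ℂ ∧ IsSym P L f) ∧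
    ∀ (P' : Fin 21 → ℂ) (L' : Fin 21 → Set ℂ), EuRealizes I P' L' → ¬ Polycyclic P' L' :=
  ⟨inc, PE, LE, regular, euReal, mirror, not_poly⟩

end Pool.Agent.Results.MP_9e03a6_co.Mirror
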